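import Pool.Agent.W260.Theta.Stms

/-!
Part E of the e-positivity of theta graphs: expansion over compositions.
-/

set_option autoImplicit false

namespace Pool.Agent.W101.Theta

open Finset Pool.Agent.W260.Theta

/-- the lists of blocks of the compositions of `n` -/
def CL (n : ℕ) : Finset (List ℕ) := (univ : Finset (Composition n)).image Composition.blocks

theorem mem_CL {n : ℕ} {L : List ℕ} : L ∈ CL n ↔ (∀ i ∈ L, 0 < i) ∧ L.sum = n := by
  unfold CL
  rw [Finset.mem_image]
  constructor
  · rintro ⟨c, _, rfl⟩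
    exact ⟨fun i hi => c.blocks_pos hi, c.blocks_sum⟩
  · rintro ⟨h1, h2⟩
    exact ⟨⟨L, fun {i} hi => h1 i hi, h2⟩, Finset.mem_univ _, rfl⟩

section gen
variable {R : Type*} [CommRing R]

theorem sum_CL (n : ℕ) (f : List ℕ → R) :
    ∑ I : Composition n, f I.blocks = ∑ L ∈ CL n, f L := by
  unfold CL
  rw [Finset.sum_image]
  intro a _ b _ h
  exact Composition.ext h

theorem CL_zero (f : List ℕ → R) : ∑ L ∈ CL 0, f L = f [] := by
  have : CL 0 = {[]} := by
    ext L
    rw [mem_CL, Finset.mem_singleton]
    constructor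
    · rintro ⟨h1, h2⟩
      cases L with
      | nil => rfl
      | cons a t =>
        have := h1 a (by simp)
        simp at h2
        omega
    · rintro rfl
      simp
  rw [this, Finset.sum_singleton]

theorem CL_succ (n : ℕ) (f : List ℕ → R) :
    ∑ L ∈ CL (n + 1), f L = ∑ h ∈ range (n + 1), ∑ L ∈ CL (n - h), f ((h + 1) :: L) := by
  rw [Finset.sum_sigma']
  refine Finset.sum_nbij' (fun L => (⟨L.headD 0 - 1, L.tail⟩ : (_ : ℕ) × List ℕ))
    (fun p => (p.1 + 1) :: p.2) ?_ ?_ ?_ ?_ ?_
  · intro L hL
    rw [mem_CL] at hL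
    obtain ⟨h1, h2⟩ := hL
    cases L with
    | nil => simp at h2
    | cons a t =>
      have ha := h1 a (by simp)
      simp only [List.headD_cons, List.tail_cons, Finset.mem_sigma, Finset.mem_range, mem_CL]
      simp only [List.sum_cons] at h2
      exact ⟨by omega, fun i hi => h1 i (by simp [hi]), by omega⟩
  · intro p hp
    rw [Finset.mem_sigma, Finset.mem_range, mem_CL] at hp
    obtain ⟨h1, h2, h3⟩ := hp
    rw [mem_CL]
    constructor
    · intro i hi
      rw [List.mem_cons] at hi
      rcases hi with rfl | hi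
      · omega
      · exact h2 i hi
    · rw [List.sum_cons, h3]; omega
  · intro L hL
    rw [mem_CL] at hL
    obtain ⟨h1, h2⟩ := hL
    cases L with
    | nil => simp at h2
    | cons a t =>
      have ha := h1 a (by simp)
      simp only [List.headD_cons, List.tail_cons]
      congr 1
      omega
  · intro p _
    rfl
  · intro L hL
    rw [mem_CL] at hL
    obtain ⟨h1, h2⟩ := hL
    cases L with
    | nil => simp at h2
    | cons a t =>
      have ha := h1 a (by simp)
      simp only [List.headD_cons, List.tail_cons]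
      congr 2
      omega

end gen

/-- product of `x - 1` -/
def tw (L : List ℕ) : ℤ := (L.map (fun x : ℕ => (x : ℤ) - 1)).prod

theorem tw_nil : tw [] = 1 := rfl
theorem tw_cons (h : ℕ) (t : List ℕ) : tw (h :: t) = ((h : ℤ) - 1) * tw t := by
  simp [tw]
theorem wt_cons (h : ℕ) (t : List ℕ) : wt (h :: t) = (h : ℤ) * tw t := rfl

/-- number of elements after position `j` in its block -/
def dd (L : List ℕ) (j : ℕ) : ℤ := Phi L (j + 1) - Phi L j

theorem Phi_zero (L : List ℕ) : Phi L 0 = 0 := by
  induction L with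
  | nil => rfl
  | cons h t ih => simp [Phi, phi, ih]

theorem dd_cons (h : ℕ) (t : List ℕ) (j : ℕ) :
    dd (h :: t) j = if j < h then (h : ℤ) - 1 - j else dd t (j - h) := by
  unfold dd
  simp only [Phi]
  split_ifs with hj
  · have h1 : j + 1 - h = 0 := by omega
    have h2 : j - h = 0 := by omega
    have h3 : min (j + 1) h = j + 1 := by omega
    have h4 : min j h = j := by omega
    rw [h1, h2, Phi_zero, phi, phi, h3, h4, Finset.sum_range_succ]
    ring
  · have h1 : j + 1 - h = (j - h) + 1 := by omega
    have h3 : min (j + 1) h = h := by omega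
    have h4 : min j h = h := by omega
    rw [h1, phi, phi, h3, h4]
    ring

section main
variable {R : Type*} [CommRing R] (E : ℕ → R)

def AA (n : ℕ) : R := ∑ L ∈ CL n, ((tw L : ℤ) : R) * (L.map E).prod
def WW (n : ℕ) : R := ∑ L ∈ CL n, ((wt L : ℤ) : R) * (L.map E).prod
def PsA (n j : ℕ) : R := ∑ L ∈ CL n, ((tw L * dd L j : ℤ) : R) * (L.map E).prod
def Ps (n j : ℕ) : R := ∑ L ∈ CL n, ((wt L * dd L j : ℤ) : R) * (L.map E).prod
def Cp (n : ℕ) : R := ∑ h ∈ range (n + 1), (h : R) * (h + 1) * E (h + 1) * AA E (n - h)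

/-- generic sums over the first block -/
def HH (c : ℕ → R) (n : ℕ) : R := ∑ h ∈ range (n + 1), c h * E (h + 1) * AA E (n - h)
def GG (c : ℕ → R) (n j : ℕ) : R := ∑ h ∈ range (n + 1), c h * E (h + 1) *
  (if j < h + 1 then ((h : R) - j) * AA E (n - h) else PsA E (n - h) (j - (h + 1)))

theorem AA_zero : AA E 0 = 1 := by
  unfold AA; rw [CL_zero]; simp [tw]

theorem WW_zero : WW E 0 = 1 := by
  unfold WW; rw [CL_zero]; simp [wt]

theorem AA_succ (n : ℕ) : AA E (n + 1) = HH E (fun h => (h : R)) n := by
  unfold AA HH AA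
  rw [CL_succ]
  refine Finset.sum_congr rfl fun h _ => ?_
  rw [Finset.mul_sum]
  refine Finset.sum_congr rfl fun L _ => ?_
  rw [tw_cons, List.map_cons, List.prod_cons]
  push_cast
  ring

theorem WW_succ (n : ℕ) : WW E (n + 1) = HH E (fun h => (h : R) + 1) n := by
  unfold WW HH AA
  rw [CL_succ]
  refine Finset.sum_congr rfl fun h _ => ?_
  rw [Finset.mul_sum]
  refine Finset.sum_congr rfl fun L _ => ?_
  rw [wt_cons, List.map_cons, List.prod_cons]
  push_cast
  ring

theorem PsA_succ (n j : ℕ) : PsA E (n + 1) j = GG E (fun h => (h : R)) n j := by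
  unfold GG AA
  conv_lhs => unfold PsA
  rw [CL_succ]
  refine Finset.sum_congr rfl fun h _ => ?_
  split_ifs with hj
  · rw [Finset.mul_sum, Finset.mul_sum]
    refine Finset.sum_congr rfl fun L _ => ?_
    rw [tw_cons, dd_cons, if_pos hj, List.map_cons, List.prod_cons]
    push_cast
    ring
  · unfold PsA
    rw [Finset.mul_sum]
    refine Finset.sum_congr rfl fun L _ => ?_
    rw [tw_cons, dd_cons, if_neg hj, List.map_cons, List.prod_cons]
    push_cast
    ring

theorem Ps_succ (n j : ℕ) : Ps E (n + 1) j = GG E (fun h => (h : R) + 1) n j := by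
  unfold GG AA
  conv_lhs => unfold Ps
  rw [CL_succ]
  refine Finset.sum_congr rfl fun h _ => ?_
  split_ifs with hj
  · rw [Finset.mul_sum, Finset.mul_sum]
    refine Finset.sum_congr rfl fun L _ => ?_
    rw [wt_cons, dd_cons, if_pos hj, List.map_cons, List.prod_cons]
    push_cast
    ring
  · unfold PsA
    rw [Finset.mul_sum]
    refine Finset.sum_congr rfl fun L _ => ?_
    rw [wt_cons, dd_cons, if_neg hj, List.map_cons, List.prod_cons]
    push_cast
    ring

theorem PsA_zero (n : ℕ) : PsA E (n + 1) 0 = Cp E n - AA E (n + 1) := by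
  rw [PsA_succ, AA_succ]
  unfold GG Cp HH
  rw [← Finset.sum_sub_distrib]
  refine Finset.sum_congr rfl fun h _ => ?_
  rw [if_pos (Nat.succ_pos h)]
  push_cast
  ring

theorem Ps_zero (n : ℕ) : Ps E (n + 1) 0 = Cp E n := by
  rw [Ps_succ]
  unfold GG Cp
  refine Finset.sum_congr rfl fun h _ => ?_
  rw [if_pos (Nat.succ_pos h)]
  push_cast
  ring

theorem GG_step (c : ℕ → R) (n j : ℕ) (hj : j + 1 ≤ n)
    (IH : ∀ n' < n, ∀ j', j' + 1 ≤ n' →
      PsA E (n' + 1) (j' + 1) - PsA E (n' + 1) j' = - AA E (n' + 1) + AA E (j' + 1) * Cp E (n' - j' - 1)) :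
    GG E c n (j + 1) - GG E c n j = - HH E c n + HH E c j * Cp E (n - j - 1) := by
  have hsplit : HH E c j * Cp E (n - j - 1) =
      ∑ h ∈ range (n + 1), (if h ≤ j then c h * E (h + 1) * AA E (j - h) * Cp E (n - j - 1) else 0) := by
    rw [← Finset.sum_filter]
    have : (range (n + 1)).filter (fun h => h ≤ j) = range (j + 1) := by
      ext h; simp only [Finset.mem_filter, Finset.mem_range]; omega
    rw [this, HH, Finset.sum_mul]
  rw [hsplit]
  unfold GG HH
  rw [← Finset.sum_sub_distrib, ← Finset.sum_neg_distrib, ← Finset.sum_add_distrib]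
  refine Finset.sum_congr rfl fun h hh => ?_
  rw [Finset.mem_range] at hh
  rcases lt_trichotomy h j with hlt | heq | hgt
  · rw [if_neg (by omega), if_neg (by omega), if_pos (by omega)]
    obtain ⟨n', hn'⟩ : ∃ n', n - h = n' + 1 := ⟨n - h - 1, by omega⟩
    obtain ⟨j', hj'⟩ : ∃ j', j - (h + 1) = j' := ⟨_, rfl⟩
    have h1 : j + 1 - (h + 1) = j' + 1 := by omega
    have h2 := IH n' (by omega) j' (by omega)
    have h3 : n' - j' - 1 = n - j - 1 := by omega
    have h4 : j - h = j' + 1 := by omega
    rw [h1, hj', hn', h4]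
    rw [h3] at h2
    linear_combination (c h * E (h + 1)) * h2
  · subst heq
    rw [if_neg (by omega), if_pos (by omega), if_pos (by omega)]
    obtain ⟨n', hn'⟩ : ∃ n', n - h = n' + 1 := ⟨n - h - 1, by omega⟩
    have h1 : h + 1 - (h + 1) = 0 := by omega
    have h3 : n - h - 1 = n' := by omega
    rw [h1, h3, hn', PsA_zero, Nat.sub_self, AA_zero]
    ring
  · rw [if_pos (by omega), if_pos (by omega), if_neg (by omega)]
    push_cast
    ring

theorem PsA_step (n : ℕ) : ∀ j, j + 1 ≤ n →
    PsA E (n + 1) (j + 1) - PsA E (n + 1) j = - AA E (n + 1) + AA E (j + 1) * Cp E (n - j - 1) := by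
  induction n using Nat.strong_induction_on with
  | _ n ih =>
    intro j hj
    rw [PsA_succ, PsA_succ, GG_step E _ n j hj ih, AA_succ, AA_succ]

theorem Ps_step (n j : ℕ) (hj : j + 1 ≤ n) :
    Ps E (n + 1) (j + 1) - Ps E (n + 1) j = - WW E (n + 1) + WW E (j + 1) * Cp E (n - j - 1) := by
  rw [Ps_succ, Ps_succ, GG_step E _ n j hj (fun n' _ j' h => PsA_step E n' j' h), WW_succ, WW_succ]

theorem PsA_last (n : ℕ) : PsA E (n + 1) n = 0 := by
  induction n using Nat.strong_induction_on with
  | _ n ih =>
    rw [PsA_succ]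
    unfold GG
    refine Finset.sum_eq_zero fun h hh => ?_
    rw [Finset.mem_range] at hh
    split_ifs with h1
    · have : h = n := by omega
      subst this
      simp
    · obtain ⟨n', hn'⟩ : ∃ n', n - h = n' + 1 := ⟨n - h - 1, by omega⟩
      have h2 : n - (h + 1) = n' := by omega
      rw [hn', h2, ih n' (by omega), mul_zero]

theorem Ps_last (n : ℕ) : Ps E (n + 1) n = 0 := by
  rw [Ps_succ]
  unfold GG
  refine Finset.sum_eq_zero fun h hh => ?_
  rw [Finset.mem_range] at hh
  split_ifs with h1
  · have : h = n := by omega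
    subst this
    simp
  · obtain ⟨n', hn'⟩ : ∃ n', n - h = n' + 1 := ⟨n - h - 1, by omega⟩
    have h2 : n - (h + 1) = n' := by omega
    rw [hn', h2, PsA_last, mul_zero]

theorem Ps_eq (n j : ℕ) (hj : j ≤ n) :
    Ps E (n + 1) j = ∑ t ∈ range (j + 1), Cp E (n - t) * WW E t - (j : R) * WW E (n + 1) := by
  induction j with
  | zero => rw [Ps_zero]; simp [WW_zero]
  | succ j ih =>
    have h1 := Ps_step E n j hj
    have h2 := ih (by omega)
    rw [Finset.sum_range_succ]
    have h3 : n - j - 1 = n - (j + 1) := by omega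
    rw [h3] at h1
    push_cast
    linear_combination h1 + h2

theorem Cp_rec (n : ℕ) : ∑ t ∈ range (n + 1), Cp E (n - t) * WW E t = (n : R) * WW E (n + 1) := by
  have h1 := Ps_eq E n n le_rfl
  rw [Ps_last] at h1
  linear_combination -h1

open PowerSeries in
theorem WW_unique (P : ℕ → R) (h0 : P 0 = 1)
    (hP : ∀ n, P (n + 1) = E (n + 1) + ∑ h ∈ range (n + 1), (h : R) * E (h + 1) * P (n - h))
    (n : ℕ) : P n = WW E n := by
  let Es : PowerSeries R := PowerSeries.mk fun k => if k = 0 then 1 else E k
  let F : PowerSeries R := PowerSeries.mk fun k => ((k - 1 : ℕ) : R) * E k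
  let G : PowerSeries R := PowerSeries.mk fun k => (k : R) * E k
  let A : PowerSeries R := PowerSeries.mk fun k => AA E k
  let W : PowerSeries R := PowerSeries.mk fun k => WW E k
  let Q : PowerSeries R := PowerSeries.mk P
  have hconv : ∀ (f g : ℕ → R) (k : ℕ), f 0 = 0 →
      PowerSeries.coeff (k + 1) (PowerSeries.mk f * PowerSeries.mk g) =
        ∑ h ∈ range (k + 1), f (h + 1) * g (k - h) := by
    intro f g k hf
    rw [PowerSeries.coeff_mul, Finset.Nat.sum_antidiagonal_eq_sum_range_succ_mk,
      Finset.sum_range_succ']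
    simp only [coeff_mk, hf, zero_mul, add_zero, Nat.add_sub_add_right]
  have hA : A = 1 + F * A := by
    ext1 k
    cases k with
    | zero => simp [A, F, AA_zero]
    | succ k =>
      rw [map_add, hconv _ _ _ (by simp)]
      simp only [A, coeff_mk, PowerSeries.coeff_one, Nat.add_eq_zero_iff, one_ne_zero,
        and_false, if_false, zero_add, Nat.add_sub_cancel]
      rw [AA_succ]
      rfl
  have hW : W = 1 + G * A := by
    ext1 k
    cases k with
    | zero => simp [W, G, WW_zero]
    | succ k =>
      rw [map_add, hconv _ _ _ (by simp)]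
      simp only [W, coeff_mk, PowerSeries.coeff_one, Nat.add_eq_zero_iff, one_ne_zero,
        and_false, if_false, zero_add]
      rw [WW_succ]
      unfold HH
      refine Finset.sum_congr rfl fun h _ => ?_
      push_cast
      ring
  have hQ : Q = Es + F * Q := by
    ext1 k
    cases k with
    | zero => simp [Q, F, Es, h0]
    | succ k =>
      rw [map_add, hconv _ _ _ (by simp)]
      simp only [Q, Es, coeff_mk, Nat.add_eq_zero_iff, one_ne_zero,
        and_false, if_false, Nat.add_sub_cancel]
      rw [hP]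
  have hG : G = F + Es - 1 := by
    ext1 k
    cases k with
    | zero => simp [G, F, Es]
    | succ k =>
      simp [G, F, Es, PowerSeries.coeff_one]
      ring
  have hfin : Q = W := by
    have h1 : Q = Es * A := by
      have : Q * A = (Es + F * Q) * A := by rw [← hQ]
      linear_combination this - Q * hA
    have h2 : W = Es * A := by
      rw [hW, hG]
      linear_combination -hA
    rw [h1, h2]
  have := congrArg (PowerSeries.coeff n) hfin
  simpa [Q, W] using this

end main

theorem part_E : S_E := by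
  intro R _ E P C h0 hP hC n m hm
  have hPW : ∀ k, P k = WW E k := fun k => WW_unique E P h0 hP k
  have hCp : ∀ k, C k = Cp E k := by
    intro k
    induction k using Nat.strong_induction_on with
    | _ k ih =>
      have h1 := hC k
      have h2 := Cp_rec E k
      rw [Finset.sum_range_succ'] at h1 h2
      rw [← hPW (k + 1)] at h2
      have h3 : ∑ t ∈ range k, C (k - (t + 1)) * P (t + 1) =
          ∑ t ∈ range k, Cp E (k - (t + 1)) * WW E (t + 1) := by
        refine Finset.sum_congr rfl fun t ht => ?_
        rw [Finset.mem_range] at ht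
        rw [ih _ (by omega), hPW]
      rw [h3, h0, Nat.sub_zero, mul_one] at h1
      rw [WW_zero, Nat.sub_zero, mul_one] at h2
      linear_combination h1 - h2
  rw [sum_CL n (fun L => ((wt L * Phi L m : ℤ) : R) * (L.map E).prod)]
  cases n with
  | zero =>
    have : m = 0 := by omega
    subst this
    simp [Phi_zero]
  | succ n =>
    induction m with
    | zero => simp [Phi_zero]
    | succ m ih =>
      rw [Finset.sum_range_succ, ih (by omega)]
      have h1 := Ps_eq E n m (by omega)
      have h2 : ∑ t ∈ range (m + 1), C (n + 1 - 1 - t) * P t =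
          ∑ t ∈ range (m + 1), Cp E (n - t) * WW E t := by
        refine Finset.sum_congr rfl fun t _ => ?_
        rw [hCp, hPW, Nat.add_sub_cancel]
      rw [h2, hPW, ← h1]
      unfold Ps
      rw [← Finset.sum_add_distrib]
      refine Finset.sum_congr rfl fun L _ => ?_
      unfold dd
      push_cast
      ring

end Pool.Agent.W101.Theta
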