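import Pool.Agent.W260.Theta.Stms

/-!
Part P of the e-positivity of theta graphs: the recursion for the chromatic symmetric function of
a path.
-/

set_option autoImplicit false

namespace Pool.Agent.W101.Theta

open Finset Pool.Agent.W260.Theta

section gen
variable {ι R : Type*} [Fintype ι] [DecidableEq ι] [CommRing R] (x : ι → R)

theorem rho_succ (l : ℕ) (i : ι) : rho x (l + 1) i = PP x (l + 1) - x i * rho x l i := by
  have h1 : rho x (l + 1) i = ∑ k, (if i = k then 0 else 1) * x k * rho x l k := rfl
  have h2 : PP x (l + 1) = ∑ k, x k * rho x l k := rfl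
  rw [h1, h2]
  have h3 : ∀ k, (if i = k then (0 : R) else 1) * x k * rho x l k
      = x k * rho x l k - (if i = k then x k * rho x l k else 0) := by
    intro k
    split_ifs with h
    · simp
    · simp
  rw [Finset.sum_congr rfl (fun k _ => h3 k), Finset.sum_sub_distrib]
  simp

theorem rho_eq (l : ℕ) (i : ι) :
    rho x l i = ∑ h ∈ range (l + 1), (-x i) ^ h * PP x (l - h) := by
  induction l with
  | zero => simp [rho, PP]
  | succ l ih =>
    rw [rho_succ, ih, Finset.sum_range_succ' _ (l + 1)]
    simp only [Nat.sub_zero, pow_zero, one_mul, Nat.add_sub_add_right]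
    rw [Finset.mul_sum]
    have : ∀ h ∈ range (l + 1), (-x i) ^ (h + 1) * PP x (l - h)
        = - (x i * ((-x i) ^ h * PP x (l - h))) := by
      intro h _
      ring
    rw [Finset.sum_congr rfl this, Finset.sum_neg_distrib]
    ring

theorem PP_eq (n : ℕ) :
    PP x (n + 1) = ∑ h ∈ range (n + 1), (-1) ^ h * (∑ i, x i ^ (h + 1)) * PP x (n - h) := by
  have h2 : PP x (n + 1) = ∑ k, x k * rho x n k := rfl
  rw [h2]
  have : ∀ k ∈ (univ : Finset ι), x k * rho x n k
      = ∑ h ∈ range (n + 1), (-1) ^ h * x k ^ (h + 1) * PP x (n - h) := by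
    intro k _
    rw [rho_eq, Finset.mul_sum]
    refine Finset.sum_congr rfl fun h _ => ?_
    rw [neg_pow]
    ring
  rw [Finset.sum_congr rfl this, Finset.sum_comm]
  refine Finset.sum_congr rfl fun h _ => ?_
  rw [Finset.mul_sum, Finset.sum_mul]

open PowerSeries in
theorem part_P_gen (e p : ℕ → R) (he0 : e 0 = 1) (hps : ∀ h, p h = ∑ i, x i ^ h)
    (newton : ∀ k : ℕ, (k : R) * e k = (-1) ^ (k + 1) *
      ∑ a ∈ Finset.HasAntidiagonal.antidiagonal k with a.1 < k, (-1) ^ a.1 * e a.1 * p a.2) (n : ℕ) :
    PP x (n + 1) = e (n + 1) +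
      ∑ h ∈ range (n + 1), (h : R) * e (h + 1) * PP x (n - h) := by
  let P : PowerSeries R := PowerSeries.mk fun k => PP x k
  let E : PowerSeries R := PowerSeries.mk fun k => e k
  let Nn : PowerSeries R := PowerSeries.mk fun k => if k = 0 then 0 else (-1) ^ (k - 1) * p k
  let E' : PowerSeries R := PowerSeries.mk fun k => (k : R) * e k
  have hP : P = 1 + Nn * P := by
    ext1 k
    rw [map_add, PowerSeries.coeff_mul]
    cases k with
    | zero => simp [P, Nn, PP]
    | succ k =>
      rw [Finset.Nat.sum_antidiagonal_eq_sum_range_succ_mk, Finset.sum_range_succ']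
      simp only [P, Nn, coeff_mk, PowerSeries.coeff_one, Nat.add_eq_zero_iff, one_ne_zero,
        and_false, if_false, Nat.add_sub_cancel, Nat.add_sub_add_right, if_true, zero_mul,
        add_zero, zero_add]
      rw [PP_eq]
      refine Finset.sum_congr rfl fun h _ => ?_
      rw [hps]
  have hE : E * Nn = E' := by
    ext1 k
    rw [PowerSeries.coeff_mul]
    simp only [E, Nn, E', coeff_mk]
    rw [newton, Finset.sum_filter, Finset.mul_sum]
    refine Finset.sum_congr rfl fun a ha => ?_
    have ha' : a.1 + a.2 = k := Finset.HasAntidiagonal.mem_antidiagonal.1 ha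
    split_ifs with h1 h2 h2
    · omega
    · simp
    · obtain ⟨b, hb⟩ : ∃ b, a.2 = b + 1 := ⟨a.2 - 1, by omega⟩
      have hk : k + 1 = a.1 + (b + 2) := by omega
      rw [hb, hk]
      simp only [Nat.add_sub_cancel]
      rw [pow_add, pow_add _ b 2]
      have : ((-1 : R) ^ a.1) * (-1) ^ a.1 = 1 := by
        rw [← mul_pow]; simp
      linear_combination (- (-1) ^ b * p (b + 1) * e a.1) * this
    · omega
  have hfin : P * (E - E') = E := by
    have : P * E - P * Nn * E = E := by
      linear_combination E * hP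
    rw [← hE]
    linear_combination this
  have hc := congrArg (PowerSeries.coeff (n + 1)) hfin
  rw [mul_comm, PowerSeries.coeff_mul, Finset.Nat.sum_antidiagonal_eq_sum_range_succ_mk,
    Finset.sum_range_succ'] at hc
  simp only [P, E, E', coeff_mk, map_sub, Nat.cast_zero, zero_mul, sub_zero,
    he0, one_mul, Nat.sub_zero, Nat.add_sub_add_right] at hc
  rw [← hc, add_right_comm, ← Finset.sum_add_distrib]
  rw [Finset.sum_eq_zero, zero_add]
  intro h _
  push_cast
  ring

end gen

theorem part_P : S_P := by
  intro N n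
  exact part_P_gen (fun i : Fin N => (MvPolynomial.X i : MvPolynomial (Fin N) ℤ))
    (fun k => MvPolynomial.esymm (Fin N) ℤ k) (fun k => MvPolynomial.psum (Fin N) ℤ k)
    (MvPolynomial.esymm_zero (Fin N) ℤ) (fun h => by simp only [MvPolynomial.psum])
    (fun k => MvPolynomial.mul_esymm_eq_sum (Fin N) ℤ k) n

end Pool.Agent.W101.Theta
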